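import Pool.Agent.helper77.MC.Spec

set_option autoImplicit false

namespace Pool.Agent.helper77.MC

open Finset Numbering

theorem ST (h1 : JC_stmt) : ST_stmt := by
  intro β _ _ t A g hA
  rw [Finset.sum_comm, Finset.sum_filter, Finset.mul_sum]
  refine Finset.sum_congr rfl fun J hJ => ?_
  have e1 : ∑ f ∈ (prefixed t : Finset (Numbering β)), (if f ∈ prefixed J then g #J else 0) =
      (#((prefixed J : Finset (Numbering β)) ∩ prefixed t) : ℝ) * g #J := by
    rw [← Finset.sum_filter, Finset.sum_const, nsmul_eq_mul, Finset.inter_comm, Finset.filter_mem_eq_inter]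
  rw [e1]
  by_cases hs : J ⊆ t
  · rw [if_pos hs]
    have h := h1 β J t hs
    have hc : ((#t).choose #J : ℝ) ≠ 0 := by
      have := Nat.choose_pos (Finset.card_le_card hs)
      exact_mod_cast this.ne'
    rw [← h]
    push_cast
    field_simp
  · rw [if_neg hs, mul_zero]
    have h2 : Disjoint (prefixed J : Finset (Numbering β)) (prefixed t) :=
      disjoint_prefixed_prefixed hs (hA J hJ)
    rw [Finset.disjoint_iff_inter_eq_empty.mp h2]
    simp

end Pool.Agent.helper77.MC
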